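import Pool.Agent.helper62.DP8.Spec

set_option autoImplicit false

namespace Pool.Agent.helper62.DP8

theorem SHF_pa {g : ℕ} {W : Type} {a : ℕ → Finset W} (h : ∀ i, a (i + g) = a i) (m i : ℕ) : a (i + g * m) = a i := by
  induction m with
  | zero => simp
  | succ m ih =>
    have h1 : i + g * (m + 1) = (i + g * m) + g := by ring
    rw [h1, h, ih]

theorem SHF_pt {g : ℕ} {W : Type} {t : ℕ → Bool → W → Prop} (h : ∀ i s x, t (i + g) s x ↔ t i s x) (m i : ℕ) (s : Bool) (x : W) :
    t (i + g * m) s x ↔ t i s x := by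
  induction m with
  | zero => simp
  | succ m ih =>
    have h1 : i + g * (m + 1) = (i + g * m) + g := by ring
    rw [h1, h, ih]

theorem SHF : SHF_stmt := by
  intro g W a R t k hC
  refine ⟨?_, ?_⟩
  · refine ⟨hC.g5, ?_, ?_, ?_, hC.symm, ?_, ?_, ?_, ?_⟩
    · intro i
      have h1 : i + g + k = (i + k) + g := by ring
      show a (i + g + k) = a (i + k)
      rw [h1, hC.pa]
    · intro i s x
      have h1 : i + g + k = (i + k) + g := by ring
      show t (i + g + k) s x ↔ t (i + k) s x
      rw [h1, hC.pt]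
    · intro i
      exact hC.six (i + k)
    · intro i j h1 h2 x hx y hy y' hy' h3 h4
      exact hC.mat (i + k) (j + k) (by omega) (by omega) x hx y hy y' hy' h3 h4
    · intro i j h1 h2 x hx y hy y' hy' h3 h4
      exact hC.mat' (i + k) (j + k) (by omega) (by omega) x hx y hy y' hy' h3 h4
    · intro i j s h1 h2 x hx y hy h3 h4
      have e : i + 1 + k = i + k + 1 := by ring
      have hx' : x ∈ a (i + 1 + k) := hx
      have hy' : y ∈ a (i + 1 + k) := hy
      rw [e] at hx' hy'
      exact hC.one (i + k) (j + k) s (by omega) (by omega) x hx' y hy' h3 h4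
    · intro i j h1 h2 x hx
      have e : i + 1 + k = i + k + 1 := by ring
      have hx' : x ∈ a (i + 1 + k) := hx
      rw [e] at hx'
      exact hC.sgn (i + k) (j + k) (by omega) (by omega) x hx'
  · rintro ⟨f, hp, hm, hr, ht⟩
    have h5 := hC.g5
    obtain ⟨q, rfl⟩ : ∃ q, g = q + 1 := ⟨g - 1, by omega⟩
    have e0 : ∀ i, i + q * k + k = i + (q + 1) * k := by intro i; ring
    refine ⟨fun i => f (i + q * k), ?_, ?_, ?_, ?_⟩
    · intro i
      have h1 : i + (q + 1) + q * k = (i + q * k) + (q + 1) := by ring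
      show f (i + (q + 1) + q * k) = f (i + q * k)
      rw [h1, hp]
    · intro i
      have h1 : f (i + q * k) ∈ a (i + q * k + k) := hm (i + q * k)
      rw [e0 i, SHF_pa hC.pa] at h1
      exact h1
    · intro i
      have h1 := hr (i + q * k)
      have e1 : i + 1 + q * k = i + q * k + 1 := by ring
      have e2 : i + 2 + q * k = i + q * k + 2 := by ring
      show ¬ R (f (i + q * k)) (f (i + 1 + q * k)) ∧ ¬ R (f (i + q * k)) (f (i + 2 + q * k))
      rw [e1, e2]
      exact h1
    · intro i
      obtain ⟨s, h1, h2, h3⟩ := ht (i + q * k)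
      have e1 : i + 1 + q * k = i + q * k + 1 := by ring
      have e2 : i + 2 + q * k = i + q * k + 2 := by ring
      have e3 : i + q * k + 1 + k = (i + 1) + (q + 1) * k := by ring
      have h1' : ¬ t (i + q * k + 1 + k) s (f (i + q * k)) := h1
      have h2' : ¬ t (i + q * k + 1 + k) s (f (i + q * k + 1)) := h2
      have h3' : ¬ t (i + q * k + 1 + k) s (f (i + q * k + 2)) := h3
      rw [e3, SHF_pt hC.pt] at h1' h2' h3'
      refine ⟨s, h1', ?_, ?_⟩
      · show ¬ t (i + 1) s (f (i + 1 + q * k))
        rw [e1]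
        exact h2'
      · show ¬ t (i + 1) s (f (i + 2 + q * k))
        rw [e2]
        exact h3'

end Pool.Agent.helper62.DP8
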